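import Mathlib
import Pool.Agent.X316.ZU.Main

/-!
MP_9410e4_ag, Q1: projective varieties over algebraically closed subfields `k` of `ℂ`, for example
over the field of algebraic numbers, which carry dense holomorphic curves of certain kinds. They are
unirational over `k`, hence potentially dense, and special.
-/

set_option autoImplicit false

namespace Pool.Agent.Results.MP_9410e4_ag.DenseCurvesDensity

open Filter MvPolynomial Set
open scoped LinearAlgebra.Projectivization
open Pool.Agent.TH143 (DiffRing LinOver)
open Pool.Agent.TH143.EL (HolMap Rep InV)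
open Pool.Agent.TH143.GT (FunField)
open Pool.Agent.TH466.QT (PotentiallyDense)
open Pool.Agent.W602.GT (IsForm coords)
open Pool.Agent.TH8.TEN (HolTensor Special)
open Pool.Agent.TH8.UNI (InVar dirCurve GraphDense DenseOver)
open Pool.Agent.X316.ZG (JointlyUniversal dring)
open Pool.Agent.X316.ZU (idealC)

/-- The complex projective variety with the ideal `p` contains a Zariski-dense entire curve such
that the ratios of the homogeneous coordinates are the ratios of the functions `h j` in the ring of
the polynomials in the functions `u j` and their derivatives. -/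
def HasUniversalCurve {N : ℕ} {ι : Type} (u : ι → ℂ → ℂ)
    (p : Ideal (MvPolynomial (Fin (N + 1)) ℂ)) : Prop :=
  ∃ f : ℂ → ℙ ℂ (Fin (N + 1) → ℂ), HolMap f ∧
    (∃ h : Fin (N + 1) → ℂ → ℂ, (∀ j, h j ∈ dring u) ∧
      ∀ᶠ z in codiscrete ℂ, Rep (f z) fun j => h j z) ∧
    (∀ z, InV p (f z)) ∧
    ∀ G : MvPolynomial (Fin (N + 1)) ℂ, IsForm G → (∀ z, eval (f z).rep G = 0) → G ∈ p

/-- Let `X` be the projective variety over the algebraically closed subfield `k` of `ℂ` with the
generic point `x`, the function field `K` and the dimension `w`; `idealC k x` is the ideal, and `L`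
the function field, of the complex variety `X_ℂ`. The following are equivalent: `X` is unirational
over `k`; `X_ℂ` has a Zariski-dense entire curve given by polynomials in the zeta function and its
derivatives; the same for some jointly universal family; there are Dirichlet polynomials which give
an entire curve in `X_ℂ` whose graph is Zariski-dense in `ℂ × X`; there is a holomorphic curve in
`X_ℂ`, defined on a domain, which is given by linear differential equations over a differential ring
`B` of holomorphic functions and which is dense over `B`. If they hold then `X` is potentially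
dense, and `X_ℂ` is special and has no holomorphic tensor differentials. -/
theorem result (k : Type) [Field k] [IsAlgClosed k] [CharZero k] [Algebra k ℂ] (N w : ℕ)
    (K : Type) [Field K] [Algebra k K] (x : Fin (N + 1) → K) (hx : x ≠ 0)
    (hgen : coords k x = ⊤) (hw : Algebra.trdeg k K = w) (L : Type) [Field L] [Algebra ℂ L]
    (y : Fin (N + 1) → L) (hy : FunField (idealC k x) 1 L w y) :
    List.TFAE [Nonempty (K →ₐ[k] FractionRing (MvPolynomial (Fin w) k)),
      HasUniversalCurve (fun _ : Unit => riemannZeta) (idealC k x),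
      ∃ (ι : Type) (u : ι → ℂ → ℂ), JointlyUniversal u ∧ HasUniversalCurve u (idealC k x),
      ∃ (M : ℕ) (a : Fin (N + 1) → ℕ → ℂ), InVar (idealC k x) univ (dirCurve M a) ∧
        GraphDense (idealC k x) univ (dirCurve M a),
      ∃ (Ω : Set ℂ) (B : Subalgebra ℂ (ℂ → ℂ)) (f : ℂ → Fin (N + 1) → ℂ), IsOpen Ω ∧
        IsPreconnected Ω ∧ Ω.Nonempty ∧ DiffRing Ω B ∧ (∀ j, AnalyticOnNhd ℂ (fun z => f z j) Ω) ∧
        (∀ j, LinOver Ω B (fun z => f z j)) ∧ InVar (idealC k x) Ω f ∧
        DenseOver Ω B (fun G => G ∈ idealC k x) f] ∧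
    (Nonempty (K →ₐ[k] FractionRing (MvPolynomial (Fin w) k)) →
      PotentiallyDense k x ∧ Special L w ∧
        ∀ q : ℕ, 0 < q → ∀ θ : MultilinearMap L (fun _ : Fin q => Derivation ℂ L L) L,
          HolTensor w θ → θ = 0) := by
  have h := Pool.Agent.X316.ZU.zeta_tfae hy
  have h' := Pool.Agent.X316.ZU.descent_tfae hx hgen hw hy
  refine ⟨?_, fun h1 => ?_⟩
  · tfae_have 1 ↔ 2 := (h'.out 1 2).trans (h.out 0 1)
    tfae_have 1 ↔ 3 := (h'.out 1 2).trans (h.out 0 2)
    tfae_have 1 ↔ 4 := (h'.out 1 2).trans (h.out 0 4)
    tfae_have 1 ↔ 5 := (h'.out 1 2).trans (h.out 0 6)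
    tfae_finish
  · obtain ⟨h2, h3⟩ := Pool.Agent.X316.ZU.special_of_unirational hy ((h'.out 1 2).1 h1)
    exact ⟨Pool.Agent.X316.ZU.dense_of_curve hx h1, h3, h2⟩

end Pool.Agent.Results.MP_9410e4_ag.DenseCurvesDensity
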