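import Pool.Agent.X333.DN.Spc
import Pool.Agent.TH466.QT.Den

/-!
MP_9410e4_ag, Q1: potential density for special varieties which are dominated by varieties given by
nested sums of high powers.

Let `V` be an irreducible component, of dimension `w`, of a projective variety in `ℙⁿ` given by
equations which are nested sums of high powers of linear forms, or nested sums of high powers of
monomials: any number of levels, at most `s` summands at each of them, and exponents at least `N`,
where `N ≥ r w (2 s + 4) (2 s - 1) (s - 1)`. We consider all projective varieties `X`, smooth or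
not, which are birational to a quotient `V / G` by a group `G` of at most `r` birational
automorphisms of `V`, or for which there is a dominant rational map `V ⇢ X` of degree `d`,
`d ! ≤ r`.

`K`, `K'` and `L` are the function fields of `V`, `X'` and `X`, `y` is the generic point of `V`.
`SubVar`, `IsComponent`, `GeneralType`, `Special` (no Bogomolov sheaf): `Pool/Agent/W602/GT`;
`IsUnirational`: `Pool/Agent/W619`. `PotentiallyDense k x`: for some finitely generated subfield of
`k` (a number field, if `k` is the field of algebraic numbers) the points of `X` with coordinates in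
this field are Zariski-dense; `x` is the generic point of `X` (`Pool/Agent/TH466/QT/Den.lean`).
`HighTowers`: `Pool/Agent/TH710/ND/Proj.lean`.
-/

set_option autoImplicit false

namespace Pool.Agent.Results.MP_9410e4_ag.DominatedNestedSpecial

open Pool.Agent.W602.GT Pool.Agent.TH710.ND
open Pool.Agent.W619.TW (IsUnirational)
open Pool.Agent.TH466.QT (PotentiallyDense)

/-- Let `V`, `w`, `s`, `N`, `r` be as above, over an algebraically closed field `k` of characteristic
zero.

(1) Either `V` is rational, and all projective varieties dominated by `V` are unirational and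
potentially dense; or every variety `X` with generically finite dominant rational maps `X' ⇢ V` (of
any degree) and `X' ⇢ X` (the quotient by a group of at most `r` birational automorphisms of `X'`, or
any map of degree `d` with `d ! ≤ r`) is not special, and has a dominant rational map to a variety of
general type and positive dimension.

(2) Let `X` be a projective variety which is birational to the quotient of `V` by a group of at most
`r` birational automorphisms, or the image of `V` by a rational map of degree `d`, `d ! ≤ r`. If `X`
is special, then `X` is unirational and potentially dense. -/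
theorem result {k : Type} [Field k] [IsAlgClosed k] [CharZero k] {n : ℕ} {ι : Type}
    {F : ι → MvPolynomial (Fin (n + 1)) k} {s N h : ℕ} (hF : HighTowers s N h F) (hN1 : 1 ≤ N)
    {K : Type} [Field K] [Algebra k K] {w : ℕ} {y : Fin (n + 1) → K}
    (hy : SubVar F K w y) (hcomp : IsComponent F y) {r : ℕ}
    (hN : r * (w * ((2 * s + 4) * ((2 * s - 1) * (2 * s - 2) / 2))) ≤ N) :
    (((∃ t : Fin w → K, AlgebraicIndependent k t ∧
          IntermediateField.adjoin k (Set.range t) = ⊤) ∧
        ∀ (L : Type) [Field L] [Algebra k L] [Algebra L K] [IsScalarTower k L K],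
          IsUnirational k L w ∧ ∀ (M : ℕ) (x : Fin (M + 1) → L), x ≠ 0 → coords k x = ⊤ →
            PotentiallyDense k x) ∨
      ∀ (K' L : Type) [Field K'] [Field L] [Algebra k K'] [Algebra k L] [Algebra K K']
        [Algebra L K'] [IsScalarTower k K K'] [IsScalarTower k L K'] [Algebra.IsAlgebraic K K']
        [FiniteDimensional L K'],
        ((IsGalois L K' ∧ Module.finrank L K' ≤ r) ∨ (Module.finrank L K').factorial ≤ r) →
        (∃ b : ℕ, 1 ≤ b ∧ b ≤ w ∧ ∃ M : IntermediateField k L, GeneralType k M b) ∧
          ¬ Special k L w (fun _ => False)) ∧
    ∀ (L : Type) [Field L] [Algebra k L] [Algebra L K] [IsScalarTower k L K]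
      [FiniteDimensional L K],
      ((IsGalois L K ∧ Module.finrank L K ≤ r) ∨ (Module.finrank L K).factorial ≤ r) →
      Special k L w (fun _ => False) →
      IsUnirational k L w ∧ ∀ (M : ℕ) (x : Fin (M + 1) → L), x ≠ 0 → coords k x = ⊤ →
        PotentiallyDense k x := by
  rcases Pool.Agent.X333.DN.quot_main' hF hN1 hy hcomp hN with h | h
  · obtain ⟨t, ht, htop⟩ := h
    have h1 : ∀ (L : Type) [Field L] [Algebra k L] [Algebra L K] [IsScalarTower k L K],
        IsUnirational k L w := fun L _ _ _ _ =>
      Pool.Agent.TH466.QT.unirational_of_sub ht htop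
    have h2 : ∀ (L : Type) [Field L] [Algebra k L] [Algebra L K] [IsScalarTower k L K],
        IsUnirational k L w ∧ ∀ (M : ℕ) (x : Fin (M + 1) → L), x ≠ 0 → coords k x = ⊤ →
          PotentiallyDense k x := fun L _ _ _ _ =>
      ⟨h1 L, fun M x hx _ => Pool.Agent.TH466.QT.dense_of_unirational (h1 L) hx⟩
    exact ⟨Or.inl ⟨⟨t, ht, htop⟩, h2⟩, fun L _ _ _ _ _ _ _ => h2 L⟩
  · refine ⟨Or.inr fun K' L _ _ _ _ _ _ _ _ _ _ hr => ?_, fun L _ _ _ _ _ hr hS => ?_⟩
    · exact ⟨(h K' L hr).1, (h K' L hr).2.2⟩
    · exact absurd hS (h K L hr).2.2

end Pool.Agent.Results.MP_9410e4_ag.DominatedNestedSpecial
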