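import Mathlib
import Pool.Agent.X333.PW.Unr

/-!
MP_9410e4_ag, Q1: projective varieties `X` over an algebraically closed subfield `k` of `ℂ`, for
example over the field of algebraic numbers, such that `X_ℂ` is, outside a proper closed subset `Z`,
contained in the union of the images of quasi-projective varieties given by nested sums of high
powers. If `X_ℂ` has a Zariski dense entire curve, then `X` is special and potentially dense; it is
even unirational over `k`.

For finitely many indices `a` let `V_a = {F_a = 0, Q_a ≠ 0}` be complex quasi-projective varieties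
in projective spaces of any dimensions `n a`, where the equations `F_a` are nested sums of high
powers of linear forms, or nested sums of high powers of monomials, and `Q_a` is any form, and let
`V_a → X_ℂ` be morphisms given by forms, with fibres of at most `r a` points, such that `X_ℂ \ Z` is
contained in the union of their images. The morphisms need not be finite, proper or dominant, they
need not extend to `{F_a = 0}`, and nothing is assumed on the singularities.

`Pt`, `MapOn`, `FibLe`, `Covers` (`Pool/Agent/X333/PW/Def.lean`), `formsOf`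
(`Pool/Agent/X333/PW/Unr.lean`), `val`, `Entire`, `Cone` (`Pool/Agent/Y221/FQ/Defs.lean`),
`HighTowers` (`Pool/Agent/TH710/ND/Proj.lean`), `idealC` (`Pool/Agent/X316/ZU/BC.lean`), `FunField`
(`Pool/Agent/TH143/GT/Fin.lean`), `PotentiallyDense` (`Pool/Agent/TH466/QT`), `HolTensor`, `Special`
(`Pool/Agent/TH8/TEN`).
-/

set_option autoImplicit false

namespace Pool.Agent.Results.MP_9410e4_ag.PiecewiseDensity

open MvPolynomial
open Pool.Agent.W602.GT (IsForm coords val)
open Pool.Agent.Y221.FQ (Entire)
open Pool.Agent.TH710.ND (HighTowers)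
open Pool.Agent.X333.PW
open Pool.Agent.TH143.GT (FunField)
open Pool.Agent.TH466.QT (PotentiallyDense)
open Pool.Agent.TH8.TEN (HolTensor Special)
open Pool.Agent.X316.ZU (idealC)

/-- Let `X` be the projective variety over the algebraically closed subfield `k` of `ℂ` with the
generic point `x`, the function field `K` and the dimension `w`; `idealC k x` is the ideal, and `L`
the function field, of the complex variety `X_ℂ`, and `formsOf (idealC k x)` are its equations. Let
`T` be a set of forms which do not all vanish on `X`, and `Z` the closed subset of `X_ℂ` where all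
forms in `T` vanish. Suppose that `X_ℂ \ Z` is contained in the union of the images of finitely many
quasi-projective varieties `V_a = {F_a = 0, Q_a ≠ 0}` in `ℙ^(n a)` under morphisms `G_a : V_a → X_ℂ`
with fibres of at most `r a` points, where the forms `F_a` are nested sums with at most `h a + 1`
levels, at most `s a` summands at each, and exponents at least
`4 (n a + 1) (h a + 1) 100 ^ (s a) (r a + 1) ^ 7`.

If there is a Zariski dense entire curve in `X_ℂ`, then `X` is unirational over `k` and potentially
dense, and `X_ℂ` is special and has no holomorphic tensor differentials of positive degree. -/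
theorem result (k : Type) [Field k] [IsAlgClosed k] [CharZero k] [Algebra k ℂ] (M w : ℕ)
    (K : Type) [Field K] [Algebra k K] (x : Fin (M + 1) → K) (hx : x ≠ 0)
    (hgen : coords k x = ⊤) (hw : Algebra.trdeg k K = w) (L : Type) [Field L] [Algebra ℂ L]
    (y : Fin (M + 1) → L) (hy : FunField (idealC k x) 1 L w y)
    {α : Type} [Finite α] {n : α → ℕ} {ι : α → Type}
    {F : ∀ a, ι a → MvPolynomial (Fin (n a + 1)) ℂ} {Q : ∀ a, MvPolynomial (Fin (n a + 1)) ℂ}
    {G : ∀ a, Fin (M + 1) → MvPolynomial (Fin (n a + 1)) ℂ} {r s N h : α → ℕ}
    {T : Set (MvPolynomial (Fin (M + 1)) ℂ)} (hT : ∃ H ∈ T, IsForm H ∧ H ∉ idealC k x)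
    (hcov : Covers F Q (formsOf (idealC k x)) G T)
    (hG : ∀ a, MapOn (F a) (Q a) (formsOf (idealC k x)) (G a))
    (hfib : ∀ a, FibLe (F a) (Q a) (G a) (r a)) (hF : ∀ a, HighTowers (s a) (N a) (h a) (F a))
    (hN : ∀ a, (n a + 1) * ((h a + 1) * (4 * 10 ^ (2 * s a) * (r a + 1) ^ 7)) ≤ N a)
    (f : ℂ → Fin (M + 1) → ℂ) (hf : Entire (formsOf (idealC k x)) f)
    (hd : ∀ H, IsForm H → (∀ t, val (f t) H = 0) → H ∈ idealC k x) :
    Nonempty (K →ₐ[k] FractionRing (MvPolynomial (Fin w) k)) ∧ PotentiallyDense k x ∧
      Special L w ∧
      ∀ q : ℕ, 0 < q → ∀ θ : MultilinearMap L (fun _ : Fin q => Derivation ℂ L L) L,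
        HolTensor w θ → θ = 0 := by
  have h1 := unir_pw hy hcov hG hfib hF hN hT hf hd
  have h' := Pool.Agent.X316.ZU.descent_tfae hx hgen hw hy
  have h2 := (h'.out 2 1).1 h1
  obtain ⟨h3, h4⟩ := Pool.Agent.X316.ZU.special_of_unirational hy h1
  exact ⟨h2, Pool.Agent.X316.ZU.dense_of_curve hx h2, h4, h3⟩

end Pool.Agent.Results.MP_9410e4_ag.PiecewiseDensity
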