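import Mathlib
import Pool.Agent.X332.SP.Dense

set_option autoImplicit false

/-!
# Varieties with dense sequences of points given by recurrences are special

The problem predicts that a projective variety `X` over a number field with a Zariski dense set of
rational points over some number field is special. We prove this if the dense set is a sequence of
points with coordinates in a finitely generated field of sequences, stable under the shift (for
instance the image of an orbit of a rational self-map of any variety under a rational map); and, if
`X` is not covered by rational curves, also if the sequence of points satisfies linear recurrences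
over a tower of such fields.

We consider sequences of complex numbers. A *field of coefficients* (`CoefField`) is an algebra `B`
of sequences, closed under the shift and under inversion, whose elements vanish from some index on
or do not vanish from some index on; it is *finitely generated* (`FinGen`) if all its elements are
rational functions of finitely many of them. The *towers* (`TowF`) start with any finitely generated
field of coefficients; in each step one goes to a field of coefficients which is generated by
finitely many sequences satisfying linear recurrences over the previous field.

`K` is the function field of `X`, `w` its dimension and `y` its generic point, in homogeneous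
coordinates: `coords ℂ y` is the field generated by the quotients of the coordinates. The varieties
dominated by `X` are given by their function fields `E`, which are the subfields of `K` containing
`ℂ`.

`CSpecial ℂ K w` is Campana's definition: there is no rational map from `X` onto a variety of
positive dimension whose orbifold base is of general type. If the map is given by `E ⊆ K`, the
latter means (`OrbGT`) that for some `N > 0` there are sections `f_i (dy_1 ∧ … ∧ dy_e) ^ N`, regular
at all prime divisors of all models of `X` (`PReg`), where `y_1, …, y_e` are algebraically
independent elements of `E` and `e` is the transcendence degree of `E`, whose ratios are `e`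
algebraically independent elements of `E`.
-/

namespace Pool.Agent.Results.MP_9410e4_ag.SpecialSequences

open MvPolynomial Filter
open Pool.Agent.TH143.DE Pool.Agent.TH143.TW Pool.Agent.TH143.GE
open Pool.Agent.X332.OR Pool.Agent.X332.GT Pool.Agent.X332.SP
open Pool.Agent.TH143.GT (Covered)
open Pool.Agent.W602.GT (coords GeneralType IsForm)

variable {N : ℕ}

/-- The points `x 0, x 1, ...` lie on the variety `X` with the generic point `y`, and they are
Zariski dense in `X`. -/
def IsDense {K : Type} [Field K] [Algebra ℂ K] (y : Fin (N + 1) → K)
    (x : ℕ → Fin (N + 1) → ℂ) : Prop :=
  (∀ m, x m ≠ 0) ∧ ∀ G : MvPolynomial (Fin (N + 1)) ℂ, IsForm G →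
    (aeval y G = 0 ↔ ∀ m, eval (x m) G = 0)

/-- Almost all points `x m` lie on the variety `X` with the generic point `y`, and every proper
closed subset of `X` contains only finitely many terms of the sequence. -/
def IsGeneric {K : Type} [Field K] [Algebra ℂ K] (y : Fin (N + 1) → K)
    (x : ℕ → Fin (N + 1) → ℂ) : Prop :=
  ∀ G : MvPolynomial (Fin (N + 1)) ℂ, IsForm G →
    (aeval y G = 0 → ∀ᶠ m in atTop, eval (x m) G = 0) ∧
    (aeval y G ≠ 0 → ∀ᶠ m in atTop, eval (x m) G ≠ 0)

/-- Let `X` be an integral closed subvariety of the complex projective space, of dimension `w`, with
function field `K` and generic point `y`.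

(1) If there is a Zariski dense sequence of points of `X` with homogeneous coordinates in a finitely
generated field of coefficients, then `X` is special.

(2) Let `x` be a generic sequence of points of `X`, and suppose that the homogeneous coordinates of
the points `x m` satisfy linear recurrences over the last field `B` of a tower, or linear recurrences
whose coefficients are polynomials in the coordinates of `t m`, where `t 0, t 1, ...` is an orbit of
a rational self-map of an affine variety of arbitrary dimension, such that every proper closed
subset of the variety contains only finitely many points of the orbit. Then `X` dominates no variety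
of general type of positive dimension, and all varieties dominated by `X` which are not covered by
rational curves are special (in particular `X`, if it is not covered by rational curves). -/
theorem result {K : Type} [Field K] [Algebra ℂ K] {w : ℕ} {y : Fin (N + 1) → K} (hy : y ≠ 0)
    (hgen : coords ℂ y = ⊤) (hw : Algebra.trdeg ℂ K = w) :
    (∀ B : Subalgebra ℂ (ℕ → ℂ), CoefField B → FinGen B → ∀ x : ℕ → Fin (N + 1) → ℂ,
      IsDense y x → (∀ j, (fun m => x m j) ∈ B) → CSpecial ℂ K w) ∧
    ∀ x : ℕ → Fin (N + 1) → ℂ, IsGeneric y x →
      ((∃ B : Subalgebra ℂ (ℕ → ℂ), TowF B ∧ ∀ j, LinRec B fun m => x m j) ∨
        ∃ (D : ℕ) (𝔱 : Ideal (MvPolynomial (Fin D) ℂ)) (t : ℕ → Fin D → ℂ), Orbit 𝔱 t ∧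
          ∀ j, RecAlong 𝔱 t fun m => x m j) →
      ∀ (E : IntermediateField ℂ K) (v : ℕ), Algebra.trdeg ℂ E = v →
        (1 ≤ v → ¬ GeneralType ℂ E v) ∧ (¬ Covered E → CSpecial ℂ E v) := by
  refine ⟨fun B hB hF x hx hxB => special_of_dense hw hy hgen hB hF hxB hx, ?_⟩
  intro x hx h E v hv
  obtain ⟨B, hB, hrec⟩ : ∃ B : Subalgebra ℂ (ℕ → ℂ), TowF B ∧ ∀ j, LinRec B fun m => x m j := by
    rcases h with h | ⟨D, 𝔱, t, ho, h⟩
    · exact h
    · exact ⟨_, TowF.base (coef_field ho) (Pool.Agent.X332.TO.finGen_coef ho),
        fun j => (h j).linRec ho⟩
  exact ⟨fun h1 => Pool.Agent.X332.GS.dominated hgen hB hx hrec E h1,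
    fun hc => special_img hgen hB hx hrec E hv hc⟩

end Pool.Agent.Results.MP_9410e4_ag.SpecialSequences
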